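import Pool.Agent.helper47.SPI.Spec

/-!
# Project spi, row QRR
-/

set_option autoImplicit false

namespace Pool.Agent.SPI

open Finset Pool.Agent.helper85.PG

theorem QRR_norm {p : ℕ} [Fact p.Prime] (u : ZMod p) : ‖(ZMod.stdAddChar u : ℂ)‖ = 1 :=
  AddChar.norm_apply _ _

theorem QRR_cr {p : ℕ} [Fact p.Prime] (χ : MulChar (ZMod p) ℂ) (ζ s₀ t : ZMod p) (h : ℕ) (y y' : ℕ) :
    ‖∑ x ∈ range h, (χ (t + (x : ZMod p) + ζ * (y : ZMod p)) *
      (ZMod.stdAddChar ((t + (x : ZMod p) + ζ * (y : ZMod p)) * s₀) : ℂ)) *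
      (starRingEnd ℂ) (χ (t + (x : ZMod p) + ζ * (y' : ZMod p)) *
      (ZMod.stdAddChar ((t + (x : ZMod p) + ζ * (y' : ZMod p)) * s₀) : ℂ))‖ =
    cr χ h (t + ζ * (y : ZMod p)) (ζ * ((y' : ZMod p) - (y : ZMod p))) := by
  unfold cr
  have h1 : ∀ x : ℕ, (χ (t + (x : ZMod p) + ζ * (y : ZMod p)) *
      (ZMod.stdAddChar ((t + (x : ZMod p) + ζ * (y : ZMod p)) * s₀) : ℂ)) *
      (starRingEnd ℂ) (χ (t + (x : ZMod p) + ζ * (y' : ZMod p)) *
      (ZMod.stdAddChar ((t + (x : ZMod p) + ζ * (y' : ZMod p)) * s₀) : ℂ)) =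
      (ZMod.stdAddChar (ζ * ((y : ZMod p) - (y' : ZMod p)) * s₀) : ℂ) *
      (χ (t + ζ * (y : ZMod p) + (x : ZMod p)) *
        (starRingEnd ℂ) (χ (t + ζ * (y : ZMod p) + ζ * ((y' : ZMod p) - (y : ZMod p)) + (x : ZMod p)))) := by
    intro x
    have e1 : t + (x : ZMod p) + ζ * (y : ZMod p) = t + ζ * (y : ZMod p) + (x : ZMod p) := by ring
    have e2 : t + ζ * (y : ZMod p) + ζ * ((y' : ZMod p) - (y : ZMod p)) + (x : ZMod p) =
        t + (x : ZMod p) + ζ * (y' : ZMod p) := by ring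
    have e3 : (ZMod.stdAddChar ((t + (x : ZMod p) + ζ * (y : ZMod p)) * s₀) : ℂ) =
        (ZMod.stdAddChar (ζ * ((y : ZMod p) - (y' : ZMod p)) * s₀) : ℂ) *
        (ZMod.stdAddChar ((t + (x : ZMod p) + ζ * (y' : ZMod p)) * s₀) : ℂ) := by
      rw [← AddChar.map_add_eq_mul]
      congr 1
      ring
    have e4 : (ZMod.stdAddChar ((t + (x : ZMod p) + ζ * (y' : ZMod p)) * s₀) : ℂ) *
        (starRingEnd ℂ) (ZMod.stdAddChar ((t + (x : ZMod p) + ζ * (y' : ZMod p)) * s₀) : ℂ) = 1 := by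
      rw [Complex.mul_conj, Complex.normSq_eq_norm_sq, QRR_norm]
      norm_num
    rw [e2, e3, ← e1, map_mul (starRingEnd ℂ)]
    calc _ = (ZMod.stdAddChar (ζ * ((y : ZMod p) - (y' : ZMod p)) * s₀) : ℂ) *
        (χ (t + (x : ZMod p) + ζ * (y : ZMod p)) * (starRingEnd ℂ) (χ (t + (x : ZMod p) + ζ * (y' : ZMod p)))) *
        ((ZMod.stdAddChar ((t + (x : ZMod p) + ζ * (y' : ZMod p)) * s₀) : ℂ) *
        (starRingEnd ℂ) (ZMod.stdAddChar ((t + (x : ZMod p) + ζ * (y' : ZMod p)) * s₀) : ℂ)) := by ring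
      _ = _ := by rw [e4, mul_one]
  rw [Finset.sum_congr rfl fun x _ => h1 x, ← Finset.mul_sum, norm_mul, QRR_norm, one_mul]

theorem QRR_cr_nonneg {p : ℕ} (χ : MulChar (ZMod p) ℂ) (h : ℕ) (s u : ZMod p) : 0 ≤ cr χ h s u := norm_nonneg _

theorem QRR_inner {p : ℕ} (χ : MulChar (ZMod p) ℂ) (ζ s : ZMod p) (h m y : ℕ) (hm : 0 < m) (hy : y < h) :
    ∑ y' ∈ (range h).filter (fun y' => y' % m = y % m), cr χ h s (ζ * ((y' : ZMod p) - (y : ZMod p))) ≤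
    ∑ z ∈ Icc (-((h / m : ℕ) : ℤ)) ((h / m : ℕ) : ℤ), cr χ h s (ζ * ((m : ZMod p) * (z : ZMod p))) := by
  set e : ℕ → ℤ := fun y' => ((y' : ℤ) - y) / m with he
  have hme : ∀ y' ∈ (range h).filter (fun y' => y' % m = y % m), (m : ℤ) * e y' = (y' : ℤ) - y := by
    intro y' hy'
    have h1 := (Finset.mem_filter.1 hy').2
    have h2 : (m : ℤ) ∣ (y' : ℤ) - y := by
      have h3 : (y : ℤ) ≡ y' [ZMOD m] := by
        have : y ≡ y' [MOD m] := h1.symm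
        exact (Int.natCast_modEq_iff).2 this
      exact h3.dvd
    exact Int.mul_ediv_cancel' h2
  have h1 : ∀ y' ∈ (range h).filter (fun y' => y' % m = y % m),
      cr χ h s (ζ * ((y' : ZMod p) - (y : ZMod p))) = cr χ h s (ζ * ((m : ZMod p) * ((e y' : ℤ) : ZMod p))) := by
    intro y' hy'
    have h2 := congrArg (fun n : ℤ => (n : ZMod p)) (hme y' hy')
    push_cast at h2
    rw [h2]
  rw [Finset.sum_congr rfl h1]
  have hinj : Set.InjOn e ((range h).filter (fun y' => y' % m = y % m)) := by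
    intro u hu v hv huv
    have h2 := hme u hu
    have h3 := hme v hv
    rw [huv, h3] at h2
    have : (v : ℤ) = u := by linarith
    exact_mod_cast this.symm
  rw [← Finset.sum_image (f := fun z : ℤ => cr χ h s (ζ * ((m : ZMod p) * (z : ZMod p)))) hinj]
  refine Finset.sum_le_sum_of_subset_of_nonneg ?_ fun z _ _ => QRR_cr_nonneg _ _ _ _
  intro z hz
  rw [Finset.mem_image] at hz
  obtain ⟨y', hy', rfl⟩ := hz
  have h2 := hme y' hy'
  have h3 : y' < h := Finset.mem_range.1 (Finset.mem_filter.1 hy').1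
  have hmz : (0 : ℤ) < m := by exact_mod_cast hm
  have h4 : (m : ℤ) * e y' < h := by rw [h2]; omega
  have h5 : -(h : ℤ) < (m : ℤ) * e y' := by rw [h2]; omega
  rw [Finset.mem_Icc]
  push_cast
  constructor
  · have : -(e y') ≤ (h : ℤ) / m := by
      rw [Int.le_ediv_iff_mul_le hmz]
      nlinarith
    linarith
  · rw [Int.le_ediv_iff_mul_le hmz]
    nlinarith

theorem QRR (hSCM : SCM_stmt) : QRR_stmt := by
  intro p _ χ ζ s₀ t h M a b hM
  set LHS : ℝ := ‖∑ x ∈ range h, ∑ y ∈ range h, (χ (t + (x : ZMod p) + ζ * (y : ZMod p)) *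
    (ZMod.stdAddChar ((t + (x : ZMod p) + ζ * (y : ZMod p)) * s₀) : ℂ)) * a y * b x‖ ^ 2 with hL
  have hMr : (0 : ℝ) < M := by exact_mod_cast hM
  have hb0 : 0 ≤ ∑ x ∈ range h, ‖b x‖ ^ 2 := Finset.sum_nonneg fun _ _ => by positivity
  have key : ∀ m ∈ Ioc M (2 * M), LHS ≤ (∑ x ∈ range h, ‖b x‖ ^ 2) * ∑ y ∈ range h, ‖a y‖ ^ 2 *
      ((m : ℝ) * ∑ z ∈ Icc (-((h / m : ℕ) : ℤ)) ((h / m : ℕ) : ℤ),
        cr χ h (t + ζ * (y : ZMod p)) (ζ * ((m : ZMod p) * (z : ZMod p)))) := by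
    intro m hm
    rw [Finset.mem_Ioc] at hm
    have hm0 : 0 < m := by omega
    refine (hSCM h m (fun x y => χ (t + (x : ZMod p) + ζ * (y : ZMod p)) *
      (ZMod.stdAddChar ((t + (x : ZMod p) + ζ * (y : ZMod p)) * s₀) : ℂ)) a b hm0).trans ?_
    apply mul_le_mul_of_nonneg_left _ hb0
    rw [Finset.mul_sum]
    refine Finset.sum_le_sum fun y hy => ?_
    have e : (m : ℝ) * (‖a y‖ ^ 2 * ∑ y' ∈ (range h).filter (fun y' => y' % m = y % m),
        ‖∑ x ∈ range h, (χ (t + (x : ZMod p) + ζ * (y : ZMod p)) *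
      (ZMod.stdAddChar ((t + (x : ZMod p) + ζ * (y : ZMod p)) * s₀) : ℂ)) *
      (starRingEnd ℂ) (χ (t + (x : ZMod p) + ζ * (y' : ZMod p)) *
      (ZMod.stdAddChar ((t + (x : ZMod p) + ζ * (y' : ZMod p)) * s₀) : ℂ))‖) =
      ‖a y‖ ^ 2 * ((m : ℝ) * ∑ y' ∈ (range h).filter (fun y' => y' % m = y % m),
        cr χ h (t + ζ * (y : ZMod p)) (ζ * ((y' : ZMod p) - (y : ZMod p)))) := by
      rw [Finset.sum_congr rfl fun y' _ => QRR_cr χ ζ s₀ t h y y']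
      ring
    rw [e]
    apply mul_le_mul_of_nonneg_left _ (by positivity)
    apply mul_le_mul_of_nonneg_left _ (by positivity)
    exact QRR_inner χ ζ _ h m y hm0 (Finset.mem_range.1 hy)
  have hsum := Finset.sum_le_sum key
  rw [Finset.sum_const, Nat.card_Ioc, nsmul_eq_mul] at hsum
  have e1 : ((2 * M - M : ℕ) : ℝ) = M := by
    have : 2 * M - M = M := by omega
    rw [this]
  rw [e1, ← Finset.mul_sum, Finset.sum_comm] at hsum
  have e2 : ∑ y ∈ range h, ‖a y‖ ^ 2 * RR χ ζ h M (t + ζ * (y : ZMod p)) =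
      (∑ y ∈ range h, ∑ m ∈ Ioc M (2 * M), ‖a y‖ ^ 2 *
      ((m : ℝ) * ∑ z ∈ Icc (-((h / m : ℕ) : ℤ)) ((h / m : ℕ) : ℤ),
        cr χ h (t + ζ * (y : ZMod p)) (ζ * ((m : ZMod p) * (z : ZMod p))))) / M := by
    rw [Finset.sum_div]
    refine Finset.sum_congr rfl fun y _ => ?_
    unfold RR
    rw [← Finset.mul_sum, mul_div_assoc]
  rw [e2, mul_div_assoc', le_div_iff₀ hMr]
  linarith

end Pool.Agent.SPI
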